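import Pool.Agent.H88.B2.Targets

/-!
# Row NDU of the board bpd_modules: weighted numbers and sharp numbers
-/

set_option autoImplicit false

namespace Pool.Agent.H40.B2.NDU

open Pool.Agent.H83.G Pool.Agent.H88.B2

theorem pf_NDU : T_NDU := by
  classical
  intro m δ hδ
  refine ⟨⌈(4 * ((m : ℝ) + 2) + 1) / δ⌉₊, fun N hN => ⟨1, le_rfl, ?_⟩⟩
  intro R w S z hR _ hw _ hcard
  have hR0 : 0 < R := by linarith
  have hRδ : 0 < R ^ δ := Real.rpow_pos_of_pos hR0 δ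
  have hw0 : 0 < w := by linarith
  have hNδ : 4 * ((m : ℝ) + 2) + 1 ≤ δ * N := by
    have h1 := Nat.ceil_le.1 hN
    rw [div_le_iff₀ hδ] at h1
    linarith
  have hpow : ∀ x : ℝ, R ^ δ < x → ((1 + x) ^ N)⁻¹ ≤ R ^ (-(4 * ((m : ℝ) + 2) + 1)) := by
    intro x hx
    have h1 : R ^ (4 * ((m : ℝ) + 2) + 1) ≤ (1 + x) ^ N := by
      calc R ^ (4 * ((m : ℝ) + 2) + 1) ≤ R ^ (δ * N) := Real.rpow_le_rpow_of_exponent_le hR hNδ
        _ = (R ^ δ) ^ N := by rw [Real.rpow_mul hR0.le, Real.rpow_natCast]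
        _ ≤ (1 + x) ^ N := pow_le_pow_left₀ hRδ.le (by linarith) N
    rw [Real.rpow_neg hR0.le]
    exact inv_anti₀ (Real.rpow_pos_of_pos hR0 _) h1
  have hone : ∀ x : ℝ, 0 ≤ x → ((1 + x) ^ N)⁻¹ ≤ 1 := fun x hx =>
    inv_le_one_of_one_le₀ (one_le_pow₀ (by linarith))
  have hnn : ∀ x : ℝ, 0 ≤ x → 0 ≤ ((1 + x) ^ N)⁻¹ := fun x hx => by positivity
  have hin : ∀ W : Pk m, ww N R δ w W z ≤ 1 := by
    intro W
    unfold ww
    calc _ ≤ 1 * 1 := mul_le_mul (hone _ (abs_nonneg _)) (hone _ (norm_nonneg _))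
          (hnn _ (norm_nonneg _)) zero_le_one
      _ = 1 := one_mul 1
  have hout : ∀ W : Pk m, ¬ (|(fc R δ W.1 z - zc W.2).1| ≤ w ∧
      ‖(fc R δ W.1 z - zc W.2).2‖ ≤ R ^ δ) →
      ww N R δ w W z ≤ R ^ (-(4 * ((m : ℝ) + 2) + 1)) := by
    intro W hW
    have hP : 0 < R ^ (-(4 * ((m : ℝ) + 2) + 1)) := Real.rpow_pos_of_pos hR0 _
    unfold ww
    by_cases h1 : |(fc R δ W.1 z - zc W.2).1| ≤ w
    · have h2 : R ^ δ < ‖(fc R δ W.1 z - zc W.2).2‖ := not_le.1 fun h => hW ⟨h1, h⟩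
      calc _ ≤ 1 * R ^ (-(4 * ((m : ℝ) + 2) + 1)) :=
            mul_le_mul (hone _ (abs_nonneg _)) (hpow _ h2) (hnn _ (norm_nonneg _)) zero_le_one
        _ = _ := one_mul _
    · have h2 : R ^ δ < |(R ^ δ / w) * (fc R δ W.1 z - zc W.2).1| := by
        rw [abs_mul, abs_of_pos (div_pos hRδ hw0), div_mul_eq_mul_div, lt_div_iff₀ hw0]
        exact mul_lt_mul_of_pos_left (not_le.1 h1) hRδ
      calc _ ≤ R ^ (-(4 * ((m : ℝ) + 2) + 1)) * 1 :=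
            mul_le_mul (hpow _ h2) (hone _ (norm_nonneg _)) (hnn _ (norm_nonneg _)) hP.le
        _ = _ := mul_one _
  unfold Nd
  rw [← Finset.sum_filter_add_sum_filter_not S (fun W => |(fc R δ W.1 z - zc W.2).1| ≤ w ∧
    ‖(fc R δ W.1 z - zc W.2).2‖ ≤ R ^ δ)]
  refine add_le_add ?_ ?_
  · calc _ ≤ ∑ _W ∈ S.filter (fun W => |(fc R δ W.1 z - zc W.2).1| ≤ w ∧
          ‖(fc R δ W.1 z - zc W.2).2‖ ≤ R ^ δ), (1 : ℝ) :=
          Finset.sum_le_sum fun W _ => hin W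
      _ = _ := by rw [Finset.sum_const, nsmul_eq_mul, mul_one]
  · calc _ ≤ ∑ _W ∈ S.filter (fun W => ¬ (|(fc R δ W.1 z - zc W.2).1| ≤ w ∧
          ‖(fc R δ W.1 z - zc W.2).2‖ ≤ R ^ δ)), R ^ (-(4 * ((m : ℝ) + 2) + 1)) :=
          Finset.sum_le_sum fun W hW => hout W (Finset.mem_filter.1 hW).2
      _ = ((S.filter (fun W => ¬ (|(fc R δ W.1 z - zc W.2).1| ≤ w ∧
          ‖(fc R δ W.1 z - zc W.2).2‖ ≤ R ^ δ))).card : ℝ) *
          R ^ (-(4 * ((m : ℝ) + 2) + 1)) := by rw [Finset.sum_const, nsmul_eq_mul]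
      _ ≤ R ^ ((4 : ℝ) * (m + 2)) * R ^ (-(4 * ((m : ℝ) + 2) + 1)) := by
          refine mul_le_mul_of_nonneg_right (le_trans ?_ hcard)
            (Real.rpow_pos_of_pos hR0 _).le
          exact_mod_cast Finset.card_filter_le _ _
      _ = R⁻¹ := by
          rw [← Real.rpow_add hR0, ← Real.rpow_neg_one]
          congr 1
          ring

end Pool.Agent.H40.B2.NDU
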